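import Mathlib
import Pool.Agent.H32.Maz

open Set Filter Function
open Cardinal hiding univ

namespace Pool.Agent.Results.MP_90cb67_lc.DeltaCut

abbrev Star (U : Ultrafilter ℕ) := Germ (U : Filter ℕ) ℕ

def Internal {U : Ultrafilter ℕ} (S : Set (Star U)) : Prop :=
  ∃ A : ℕ → Set ℕ, S = {x | ∃ n : ℕ → ℕ, x = ↑n ∧ {i | n i ∈ A i} ∈ U}

def cut (U : Ultrafilter ℕ) (P : ℕ → Set ℕ) : Set (Star U) :=
  {x | ∃ n : ℕ → ℕ, x = ↑n ∧ ∀ j, BddAbove (n '' P j)}

variable (a : ℕ → ℕ → ℕ) (ρ : ℕ → ℕ)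

def Rich : ℕ → Set ℕ → Prop
  | 0, X => X.Nonempty
  | r + 1, X => ∃ᶠ v in atTop, Rich r (X ∩ {x | a r x = v})

def Large (X : Set ℕ) : Prop := ∀ r, ∃ᶠ j in atTop, Rich a r (X ∩ {x | ρ x = j})

variable {a ρ}

lemma Rich.mono {r : ℕ} : ∀ {X Y}, Rich a r X → X ⊆ Y → Rich a r Y := by
  induction r with
  | zero => exact fun h k => Set.Nonempty.mono k h
  | succ r ih => exact fun h k => Frequently.mono h fun v hv => ih hv (inter_subset_inter_left _ k)

lemma Rich.le {r s : ℕ} (h : r ≤ s) {X : Set ℕ} (k : Rich a s X) : Rich a r X := by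
  induction h with
  | refl => exact k
  | step _ ih => exact ih ((Frequently.exists k).choose_spec.mono inter_subset_left)

lemma Rich.union {r : ℕ} : ∀ {X Y}, Rich a r (X ∪ Y) → Rich a r X ∨ Rich a r Y := by
  induction r with
  | zero => exact fun h => union_nonempty.1 h
  | succ r ih =>
    exact fun h => frequently_or_distrib.1
      (Frequently.mono h fun v hv => ih (by rwa [union_inter_distrib_right] at hv))

lemma Large.mono {X Y : Set ℕ} (h : Large a ρ X) (k : X ⊆ Y) : Large a ρ Y :=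
  fun r => (h r).mono fun _ z => z.mono (inter_subset_inter_left _ k)

lemma Large.union {X Y : Set ℕ} (h : Large a ρ (X ∪ Y)) : Large a ρ X ∨ Large a ρ Y := by
  by_contra z
  simp only [Large, not_or, not_forall] at z
  obtain ⟨⟨r, hr⟩, s, hs⟩ := z
  rcases frequently_or_distrib.1 ((h (max r s)).mono fun j hj =>
    Rich.union (by rwa [union_inter_distrib_right] at hj)) with k | k
  exacts [hr (k.mono fun _ => Rich.le (le_max_left _ _)),
    hs (k.mono fun _ => Rich.le (le_max_right _ _))]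

def Sm (h : Large a ρ univ) : Filter ℕ where
  sets := {X | ¬ Large a ρ Xᶜ}
  univ_sets z := by simpa [Rich] using z 0
  sets_of_superset h k z := h (z.mono (compl_subset_compl.2 k))
  inter_sets h k z := (Large.union (compl_inter _ _ ▸ z)).elim h k

lemma ne_iff (h : Large a ρ univ) {F : Filter ℕ} :
    (Sm h ⊓ F).NeBot ↔ ∀ X ∈ F, Large a ρ X := by
  rw [inf_neBot_iff]
  refine ⟨fun k X hX => by_contra fun z => ?_, fun k A a1 B b1 => by_contra fun z =>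
    a1 ((k B b1).mono fun x hx hA => z ⟨x, hA, hx⟩)⟩
  simpa using k (s := Xᶜ) (show ¬ Large a ρ Xᶜᶜ by simpa using z) hX

lemma base : ∃ (a : ℕ → ℕ → ℕ) (ρ : ℕ → ℕ), Surjective ρ ∧ Large a ρ univ := by
  obtain ⟨e⟩ : Nonempty (ℕ ≃ ℕ × (ℕ →₀ ℕ)) := nonempty_equiv_of_countable
  refine ⟨fun k x => (e x).2 k, fun x => (e x).1, fun j => ⟨e.symm (j, 0), by simp⟩,
    fun r => Frequently.of_forall fun j => ?_⟩
  have : ∀ r (c : ℕ →₀ ℕ), Rich (fun k x => (e x).2 k) r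
      {x | (e x).1 = j ∧ ∀ k ≥ r, (e x).2 k = c k} := fun r => by
    induction r with
    | zero => exact fun c => ⟨e.symm (j, c), by simp⟩
    | succ r ih =>
      refine fun c => Frequently.of_forall fun v => (ih (c.update r v)).mono fun x hx =>
        ⟨⟨hx.1, fun k hk => ?_⟩, by simpa using hx.2 r le_rfl⟩
      rw [hx.2 k (by omega), Finsupp.update_apply, if_neg (by omega)]
  exact (this r 0).mono fun x hx => ⟨trivial, hx.1⟩

/-- `𝔡 = 𝔠`: fewer than continuum many functions never form a dominating family -/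
def DEqC : Prop := ∀ D : Set (ℕ → ℕ), #D < 𝔠 → ∃ g : ℕ → ℕ, ∀ f ∈ D, ∃ᶠ n in atTop, f n < g n

lemma step (hd : DEqC) {S : Set (Set ℕ)} (hs : #S < 𝔠) (h : ∀ X ∈ generate S, Large a ρ X)
    (y : ℕ → ℕ) : ∃ B, ((∃ k, B = {x | a k x < y x}) ∨ ∃ g : ℕ → ℕ, B = {x | y x ≤ g (ρ x)}) ∧
      ∀ X ∈ generate S ⊓ 𝓟 B, Large a ρ X := by
  suffices ∃ B, ((∃ k, B = {x | a k x < y x}) ∨ ∃ g : ℕ → ℕ, B = {x | y x ≤ g (ρ x)}) ∧
      ∀ X ∈ generate S, Large a ρ (X ∩ B) from this.imp fun B ⟨b1, b2⟩ => ⟨b1, fun X hX =>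
        (b2 _ (mem_inf_principal.1 hX)).mono fun x hx => hx.1 hx.2⟩
  by_cases q : ∃ k, ∀ X ∈ generate S, Large a ρ (X ∩ {x | a k x < y x})
  · exact ⟨_, .inl ⟨_, rfl⟩, q.choose_spec⟩
  push Not at q
  let X : Finset S → Set ℕ := fun t => ⋂ A ∈ t, A.1
  have : ∀ (p : Finset S × ℕ) j, ∃ v, ∃ i ≥ j,
      Rich a p.2 (X p.1 ∩ {x | y x ≤ v} ∩ {x | ρ x = i}) := fun ⟨t, r⟩ j => by
    obtain ⟨W, w1, w2⟩ := q r
    have := (Large.union ((h _ (inter_mem w1 ((biInter_finset_mem t).2 fun A _ =>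
      mem_generate_of_mem A.2))).mono (Y := W ∩ {x | a r x < y x} ∪ X t ∩ {x | y x ≤ a r x})
      fun x hx => (lt_or_ge (a r x) (y x)).imp (fun z => ⟨hx.1, z⟩)
        fun z => ⟨hx.2, z⟩)).resolve_left w2
    obtain ⟨i, i1, i2⟩ := frequently_atTop.1 (this (r + 1)) j
    obtain ⟨u, hu⟩ := Frequently.exists i2
    exact ⟨u, i, i1, hu.mono fun x hx =>
      ⟨⟨hx.1.1.1, (show y x ≤ a r x from hx.1.1.2).trans_eq hx.2⟩, hx.1.2⟩⟩
  choose v i h1 h2 using this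
  obtain ⟨g, hg⟩ := hd (range v) (mk_range_le.trans_lt (by
    rw [mk_prod, lift_id, lift_id]
    refine mul_lt_of_lt aleph0_le_continuum ?_ (by simp [aleph0_lt_continuum])
    cases finite_or_infinite S
    · exact (lt_aleph0_of_finite _).trans aleph0_lt_continuum
    · rwa [mk_finset_of_infinite]))
  refine ⟨_, .inr ⟨fun j => (Finset.range (j + 1)).sup g, rfl⟩,
    fun Z hZ r => frequently_atTop.2 fun N => ?_⟩
  rw [generate_eq_biInf, iInf_subtype'] at hZ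
  obtain ⟨t, ht⟩ := (mem_iInf_finite Z).1 hZ
  simp only [iInf_principal_finset, mem_principal] at ht
  obtain ⟨j, j1, j2⟩ := frequently_atTop.1 (hg _ ⟨(t, r), rfl⟩) N
  refine ⟨_, j1.trans (h1 (t, r) j), (h2 (t, r) j).mono fun x hx => ⟨⟨ht hx.1.1, ?_⟩, hx.2⟩⟩
  refine (show y x ≤ _ from hx.1.2).trans (j2.le.trans (Finset.le_sup (f := g) ?_))
  rw [hx.2]
  exact Finset.mem_range.2 (Nat.lt_succ_of_le (h1 (t, r) j))

theorem result (hd : DEqC) : ∃ (U : Ultrafilter ℕ) (P : ℕ → Set ℕ),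
    (∀ n : ℕ, U ≠ pure n) ∧ Pairwise (Disjoint on P) ∧ ⋃ j, P j = univ ∧
    (∀ j, (P j).Nonempty ∧ P j ∉ U) ∧ ¬ Internal (cut U P) ∧
    ∃ A : ℕ → Set (Star U), (∀ k, Internal (A k)) ∧ cut U P = ⋂ k, A k := by
  classical
  obtain ⟨a, ρ, hρ, h0⟩ := base
  obtain ⟨S, h1, h2⟩ := H32.Maz.build (T := ℕ → ℕ) (by simp) id
    (fun S => ∀ X ∈ generate S, Large a ρ X)
    (fun y S => ∃ B ∈ S, (∃ k, B = {x | a k x < y x}) ∨ ∃ g : ℕ → ℕ, B = {x | y x ≤ g (ρ x)})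
    (fun t S S' k ⟨B, a, b⟩ => ⟨B, k a, b⟩)
    (fun c hc k B b1 => by
      obtain ⟨t, t1, t2, t3⟩ := mem_generate_iff.1 b1
      rcases c.eq_empty_or_nonempty with rfl | hn
      · obtain rfl : t = ∅ := by simpa using t1
        exact h0.mono (by simpa using t3)
      · obtain ⟨S, s1, s2⟩ := hc.exists_mem_subset_of_finite_of_subset_sUnion hn t2 t1
        exact k S s1 B (mem_generate_iff.2 ⟨t, s2, t2, t3⟩))
    (fun S k hs y => by
      obtain ⟨B, b1, b2⟩ := step hd (image_id S ▸ hs) k y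
      refine ⟨S ∪ {B}, subset_union_left, (finite_singleton B).subset fun A hA => ?_, ?_,
        B, .inr rfl, b1⟩
      · simp only [image_id] at hA
        exact hA.1.resolve_left hA.2
      · rwa [generate_union, generate_singleton])
  have := (ne_iff h0).2 h1
  let U := Ultrafilter.of (Sm h0 ⊓ generate S)
  have u1 : ∀ X ∈ U, Large a ρ X := fun X hX => by_contra fun z =>
    Ultrafilter.compl_mem_iff_notMem.1 (Ultrafilter.of_le (Sm h0 ⊓ generate S)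
      (mem_inf_of_left (show ¬ Large a ρ Xᶜᶜ by simpa using z))) hX
  have u2 : ∀ j, {x | ρ x = j} ∉ U := fun j z => by
    obtain ⟨i, ⟨x, x1, x2⟩, hi⟩ := ((u1 _ z 0).and_eventually (eventually_gt_atTop j)).exists
    exact hi.ne (x1.symm.trans x2)
  have u3 : ∀ k (g : ℕ → ℕ), {x | g (ρ x) < a k x} ∈ U := fun k g => by
    refine Ultrafilter.compl_notMem_iff.1 fun z => ?_
    obtain ⟨j, hj⟩ := (u1 _ z (k + 1)).exists
    obtain ⟨v, v1, v2⟩ := (Frequently.and_eventually hj (eventually_gt_atTop (g j))).exists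
    obtain ⟨x, ⟨x1, x2⟩, x3⟩ := Rich.le (Nat.zero_le k) v1
    exact x1 (show g (ρ x) < a k x by rw [x2, x3]; exact v2)
  have c1 : ∀ y : ℕ → ℕ, (↑y : Star U) ∈ cut U (fun j => {x | ρ x = j}) ↔
      ∃ g : ℕ → ℕ, {x | y x ≤ g (ρ x)} ∈ U := fun y => by
    refine ⟨fun ⟨n, n1, n2⟩ => ?_, fun ⟨g, hg⟩ => ⟨fun x => min (y x) (g (ρ x)),
      Germ.coe_eq.2 (mem_of_superset hg fun x hx => (min_eq_left hx).symm), fun j => ⟨g j, ?_⟩⟩⟩
    · choose g hg using n2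
      exact ⟨g, mem_of_superset (Germ.coe_eq.1 n1) fun x hx =>
        (show y x = n x from hx).trans_le (hg _ ⟨x, rfl, rfl⟩)⟩
    · rintro _ ⟨x, rfl, rfl⟩
      exact min_le_right _ _
  have c2 : ∀ (y : ℕ → ℕ) (A : ℕ → Set ℕ), (↑y : Star U) ∈
      {x : Star U | ∃ n : ℕ → ℕ, x = ↑n ∧ {i | n i ∈ A i} ∈ U} ↔ {i | y i ∈ A i} ∈ U := fun y A =>
    ⟨fun ⟨n, n1, n2⟩ => mem_of_superset (inter_mem (Germ.coe_eq.1 n1) n2) fun i hi =>
      show y i ∈ A i from (show y i = n i from hi.1) ▸ hi.2, fun z => ⟨y, rfl, z⟩⟩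
  refine ⟨U, fun j => {x | ρ x = j}, fun n hn => u2 (ρ n) (by simp [hn]),
    fun i j hij => disjoint_left.2 fun x x1 x2 => hij (x1.symm.trans x2),
    eq_univ_of_forall fun x => mem_iUnion.2 ⟨_, rfl⟩, fun j => ⟨hρ j, u2 j⟩, fun ⟨A, hA⟩ => ?_,
    _, fun k => ⟨fun i => Iic (a k i), rfl⟩, ?_⟩
  · let m : ℕ → ℕ := fun i => Nat.findGreatest (· ∈ A i) (a 0 i)
    have m0 := (c2 _ _).1 (hA ▸ (c1 fun _ => 0).2 ⟨id, univ_mem' fun _ => Nat.zero_le _⟩)
    obtain ⟨g, hg⟩ := (c1 m).1 (hA ▸ (c2 m A).2 (mem_of_superset m0 fun i hi =>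
      Nat.findGreatest_spec (P := (· ∈ A i)) (Nat.zero_le _) hi))
    have m1 := (c2 _ _).1 (hA ▸ (c1 fun i => m i + 1).2 ⟨fun j => g j + 1,
      mem_of_superset hg fun i hi => Nat.succ_le_succ hi⟩)
    obtain ⟨i, ⟨i1, i2⟩, i3⟩ := Ultrafilter.nonempty_of_mem (inter_mem (inter_mem hg m1) (u3 0 g))
    exact Nat.findGreatest_is_greatest (Nat.lt_succ_self _) (lt_of_le_of_lt (b := g (ρ i)) i1 i3 : m i < a 0 i) i2
  · ext x
    induction x using Germ.inductionOn with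
    | h y =>
      rw [c1, mem_iInter]
      simp only [c2]
      refine ⟨fun ⟨g, hg⟩ k => mem_of_superset (inter_mem hg (u3 k g)) fun i hi =>
        (le_trans (b := g (ρ i)) hi.1 (le_of_lt hi.2) : y i ≤ a k i), fun z => ?_⟩
      obtain ⟨B, b1, ⟨k, rfl⟩ | ⟨g, rfl⟩⟩ := h2 y
      · obtain ⟨i, i1, i2⟩ := Ultrafilter.nonempty_of_mem (inter_mem (z k) (Ultrafilter.of_le
          (Sm h0 ⊓ generate S) (mem_inf_of_right (mem_generate_of_mem b1))))
        exact absurd (show a k i < y i from i2) (not_lt.2 i1)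
      · exact ⟨g, Ultrafilter.of_le _ (mem_inf_of_right (mem_generate_of_mem b1))⟩

end Pool.Agent.Results.MP_90cb67_lc.DeltaCut
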